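import Mathlib

set_option autoImplicit false

namespace Pool.Agent.Results.MP_b358a5_co.Separating

open MvPolynomial

/-- A finite family of good polynomials (nonnegative integer coefficients, zero constant term) in
finitely many formal variables. -/
structure Pattern where
  /-- number of variables -/
  m : ℕ
  /-- number of polynomials -/
  k : ℕ
  /-- the polynomials -/
  F : Fin k → MvPolynomial (Fin m) ℕ
  good : ∀ l, constantCoeff (F l) = 0

/-- The set `P_d`: nonzero polynomials with nonnegative integer coefficients, zero constant term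
and degree at most `d` in each variable. -/
def P (d : ℕ) : Set (MvPolynomial ℕ ℕ) :=
  {p | p ≠ 0 ∧ constantCoeff p = 0 ∧ ∀ n, p.degreeOf n ≤ d}

/-- The value of the `l`-th polynomial of the pattern at the tuple `a`. -/
noncomputable def Pattern.value (Φ : Pattern) (a : Fin Φ.m → MvPolynomial ℕ ℕ) (l : Fin Φ.k) :
    MvPolynomial ℕ ℕ := aeval a (Φ.F l)

/-- The tuple `a` is a copy of the pattern in `S`. -/
def Pattern.IsCopy (Φ : Pattern) (S : Set (MvPolynomial ℕ ℕ)) (a : Fin Φ.m → MvPolynomial ℕ ℕ) :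
    Prop := (∀ t, a t ∈ S) ∧ ∀ l, Φ.value a l ∈ S

/-- The pattern appears in `S`. -/
def Pattern.AppearsIn (Φ : Pattern) (S : Set (MvPolynomial ℕ ℕ)) : Prop := ∃ a, Φ.IsCopy S a

/-- The pattern is partition regular over `S`: every finite colouring of `S` admits a copy whose
values all receive the same colour. -/
def Pattern.PartitionRegular (Φ : Pattern) (S : Set (MvPolynomial ℕ ℕ)) : Prop :=
  ∀ (r : ℕ) (χ : S → Fin r), ∃ a, ∃ h : Φ.IsCopy S a,
    ∀ l l', χ ⟨Φ.value a l, h.2 l⟩ = χ ⟨Φ.value a l', h.2 l'⟩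

/-! ### lowest monomials -/

/-- `a` is the lowest monomial of `p` in the lexicographic order. -/
def IsLow (p : MvPolynomial ℕ ℕ) (a : ℕ →₀ ℕ) : Prop :=
  a ∈ p.support ∧ ∀ m ∈ p.support, toLex a ≤ toLex m

theorem exists_low {p : MvPolynomial ℕ ℕ} (hp : p ≠ 0) : ∃ a, IsLow p a :=
  Finset.exists_min_image p.support toLex (support_nonempty.mpr hp)

theorem low_unique {p : MvPolynomial ℕ ℕ} {a b : ℕ →₀ ℕ} (ha : IsLow p a) (hb : IsLow p b) :
    a = b := toLex.injective (le_antisymm (ha.2 b hb.1) (hb.2 a ha.1))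

open scoped Classical in
/-- The coefficient of the lowest monomial. -/
noncomputable def lowCoeff (p : MvPolynomial ℕ ℕ) : ℕ :=
  if h : p ≠ 0 then coeff (exists_low h).choose p else 0

theorem lowCoeff_eq {p : MvPolynomial ℕ ℕ} {a : ℕ →₀ ℕ} (ha : IsLow p a) :
    lowCoeff p = coeff a p := by
  have hp : p ≠ 0 := fun h => by
    have := ha.1
    rw [h] at this
    simp at this
  unfold lowCoeff
  rw [dif_pos hp, low_unique (exists_low hp).choose_spec ha]

theorem lt_of_add {a b c : ℕ →₀ ℕ} (h : toLex a ≤ toLex b) (hc : c ≠ 0) :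
    toLex a < toLex (b + c) := by
  have h1 : toLex (0 : ℕ →₀ ℕ) < toLex c := by
    have h2 : toLex (0 : ℕ →₀ ℕ) ≤ toLex c := Finsupp.toLex_monotone (zero_le (a := c))
    exact lt_of_le_of_ne h2 (fun h3 => hc (toLex.injective h3).symm)
  have h3 : toLex (b + c) = toLex b + toLex c := rfl
  rw [h3]
  exact lt_of_le_of_lt h (lt_add_of_pos_right _ h1)

theorem mem_mul_support {p g : MvPolynomial ℕ ℕ} {a m : ℕ →₀ ℕ} (ha : IsLow p a)
    (hg : constantCoeff g = 0) (hm : m ∈ (p * g).support) : toLex a < toLex m := by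
  have h1 := support_mul p g hm
  rw [Finset.mem_add] at h1
  obtain ⟨b, hb, c, hc, rfl⟩ := h1
  apply lt_of_add (ha.2 b hb)
  rintro rfl
  rw [mem_support_iff] at hc
  exact hc hg

theorem low_combination {p q g : MvPolynomial ℕ ℕ} {a : ℕ →₀ ℕ} {c : ℕ} (hc : 0 < c)
    (ha : IsLow p a) (hq : ∀ m ∈ q.support, toLex a < toLex m) (hg : constantCoeff g = 0) :
    lowCoeff (c • p + q + p * g) = c * coeff a p := by
  have h1 : coeff a q = 0 := by
    by_contra h
    exact lt_irrefl _ (hq a (mem_support_iff.mpr h))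
  have h2 : coeff a (p * g) = 0 := by
    by_contra h
    exact lt_irrefl _ (mem_mul_support ha hg (mem_support_iff.mpr h))
  have h3 : coeff a (c • p + q + p * g) = c * coeff a p := by
    rw [coeff_add, coeff_add, h1, h2, coeff_smul]
    simp
  have h4 := mem_support_iff.mp ha.1
  rw [← h3]
  apply lowCoeff_eq
  refine ⟨?_, fun m hm => ?_⟩
  · rw [mem_support_iff, h3]
    exact Nat.mul_ne_zero hc.ne' h4
  · by_cases h5 : m ∈ (p * g).support
    · exact (mem_mul_support ha hg h5).le
    · by_cases h6 : m ∈ q.support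
      · exact (hq m h6).le
      · apply ha.2
        rw [mem_support_iff] at hm ⊢
        intro h7
        apply hm
        rw [notMem_support_iff] at h5 h6
        rw [coeff_add, coeff_add, h5, h6, coeff_smul, h7]
        simp

/-! ### no cancellation -/

theorem add_mem_support {p q : MvPolynomial ℕ ℕ} {a b : ℕ →₀ ℕ} (ha : a ∈ p.support)
    (hb : b ∈ q.support) : a + b ∈ (p * q).support := by
  rw [mem_support_iff] at ha hb ⊢
  rw [coeff_mul]
  apply Nat.pos_iff_ne_zero.mp
  apply Finset.sum_pos'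
  · intro _ _
    exact Nat.zero_le _
  · exact ⟨(a, b), Finset.HasAntidiagonal.mem_antidiagonal.mpr rfl, Nat.pos_of_ne_zero (Nat.mul_ne_zero ha hb)⟩

theorem smul_mem_support {p : MvPolynomial ℕ ℕ} {a : ℕ →₀ ℕ} (ha : a ∈ p.support) (n : ℕ) :
    n • a ∈ (p ^ n).support := by
  induction n with
  | zero => simp
  | succ n ih =>
    rw [pow_succ, succ_nsmul]
    exact add_mem_support ih ha

theorem val_double (n : ℕ) (hn : n ≠ 0) : padicValNat 2 (2 * n) % 2 ≠ padicValNat 2 n % 2 := by
  rw [padicValNat.mul (by norm_num) hn]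
  simp only [padicValNat.self (by norm_num : 1 < 2)]
  omega

/-! ### the pattern -/

/-- The separating pattern. -/
noncomputable def pat (i : ℕ) (hi : 1 ≤ i) : Pattern where
  m := 2
  k := 2
  F := ![X 0 + 2 * X 1 + X 0 ^ i * X 1 + X 0 * X 1 ^ i,
    2 * X 0 + X 1 + X 0 ^ i * X 1 + X 0 * X 1 ^ i]
  good := by
    intro l
    have h0 : i ≠ 0 := by omega
    fin_cases l <;> simp [h0]

theorem value_zero {i : ℕ} (hi : 1 ≤ i) (a : Fin 2 → MvPolynomial ℕ ℕ) :
    (pat i hi).value a (0 : Fin 2) = a 0 + 2 * a 1 + a 0 ^ i * a 1 + a 0 * a 1 ^ i := by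
  unfold Pattern.value pat
  simp [two_mul]

theorem value_one {i : ℕ} (hi : 1 ≤ i) (a : Fin 2 → MvPolynomial ℕ ℕ) :
    (pat i hi).value a (1 : Fin 2) = 2 * a 0 + a 1 + a 0 ^ i * a 1 + a 0 * a 1 ^ i := by
  unfold Pattern.value pat
  simp [two_mul]

theorem not_regular {i : ℕ} (hi : 1 ≤ i) : ¬ (pat i hi).PartitionRegular (P i) := by
  intro hreg
  obtain ⟨a, ha, hcol⟩ := hreg 2
    (fun p => ⟨padicValNat 2 (lowCoeff p.1) % 2, Nat.mod_lt _ (by norm_num)⟩)
  have h01 := hcol (0 : Fin 2) (1 : Fin 2)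
  rw [Fin.mk.injEq] at h01
  simp only at h01
  obtain ⟨hmem, hval⟩ := ha
  have hval0 := hval (0 : Fin 2)
  rw [value_zero] at hval0 h01
  rw [value_one] at h01
  have hx := hmem (0 : Fin 2)
  have hy := hmem (1 : Fin 2)
  obtain ⟨x, hxa⟩ : ∃ x, x = a (0 : Fin 2) := ⟨_, rfl⟩
  obtain ⟨y, hya⟩ : ∃ y, y = a (1 : Fin 2) := ⟨_, rfl⟩
  rw [← hxa] at hx
  rw [← hya] at hy
  rw [← hxa, ← hya] at hval0 h01
  obtain ⟨hx0, hxc, _⟩ := hx
  obtain ⟨hy0, hyc, _⟩ := hy
  obtain ⟨u, hu⟩ := exists_low hx0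
  obtain ⟨v, hv⟩ := exists_low hy0
  obtain ⟨j, rfl⟩ : ∃ j, i = j + 1 := ⟨i - 1, by omega⟩
  have huv : u ≠ v := by
    rintro rfl
    have h1 : (j + 1) • u + u ∈ (x ^ (j + 1) * y).support :=
      add_mem_support (smul_mem_support hu.1 (j + 1)) hv.1
    have h2 : (j + 1) • u + u ∈ (x + 2 * y + x ^ (j + 1) * y + x * y ^ (j + 1)).support := by
      rw [mem_support_iff] at h1 ⊢
      rw [coeff_add, coeff_add]
      omega
    have h3 : u ≠ 0 := by
      rintro rfl
      exact mem_support_iff.mp hu.1 hxc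
    obtain ⟨n, hn⟩ := Finsupp.ne_iff.mp h3
    have h4 := (degreeOf_le_iff.mp (hval0.2.2 n)) _ h2
    simp only [Finsupp.coe_zero, Pi.zero_apply] at hn
    simp only [Finsupp.coe_add, Finsupp.coe_smul, Pi.add_apply, Pi.smul_apply, smul_eq_mul] at h4
    have h5 : 1 ≤ u n := Nat.one_le_iff_ne_zero.mpr hn
    have h6 : (j + 1) * 1 ≤ (j + 1) * u n := Nat.mul_le_mul_left _ h5
    omega
  rcases lt_or_gt_of_ne (fun h => huv (toLex.injective h) : toLex u ≠ toLex v) with hlt | hlt
  · have hcu := mem_support_iff.mp hu.1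
    have g0 : constantCoeff (x ^ j * y + y ^ (j + 1)) = 0 := by simp [hyc]
    have e1 : lowCoeff (x + 2 * y + x ^ (j + 1) * y + x * y ^ (j + 1)) = 1 * coeff u x := by
      rw [← low_combination one_pos hu (q := 2 * y) _ g0]
      · congr 1
        rw [one_smul]
        ring
      · intro m hm
        refine lt_of_lt_of_le hlt (hv.2 m ?_)
        rw [mem_support_iff] at hm ⊢
        intro h
        apply hm
        rw [two_mul, coeff_add, h, Nat.add_zero]
    have e2 : lowCoeff (2 * x + y + x ^ (j + 1) * y + x * y ^ (j + 1)) = 2 * coeff u x := by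
      rw [← low_combination two_pos hu (q := y) _ g0]
      · congr 1
        rw [two_smul]
        ring
      · intro m hm
        exact lt_of_lt_of_le hlt (hv.2 m hm)
    rw [e1, e2, one_mul] at h01
    exact val_double _ hcu h01.symm
  · have hcv := mem_support_iff.mp hv.1
    have g0 : constantCoeff (x ^ (j + 1) + x * y ^ j) = 0 := by simp [hxc]
    have e1 : lowCoeff (x + 2 * y + x ^ (j + 1) * y + x * y ^ (j + 1)) = 2 * coeff v y := by
      rw [← low_combination two_pos hv (q := x) _ g0]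
      · congr 1
        rw [two_smul]
        ring
      · intro m hm
        exact lt_of_lt_of_le hlt (hu.2 m hm)
    have e2 : lowCoeff (2 * x + y + x ^ (j + 1) * y + x * y ^ (j + 1)) = 1 * coeff v y := by
      rw [← low_combination one_pos hv (q := 2 * x) _ g0]
      · congr 1
        rw [one_smul]
        ring
      · intro m hm
        refine lt_of_lt_of_le hlt (hu.2 m ?_)
        rw [mem_support_iff] at hm ⊢
        intro h
        apply hm
        rw [two_mul, coeff_add, h, Nat.add_zero]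
    rw [e1, e2, one_mul] at h01
    exact val_double _ hcv h01

theorem degreeOf_X_pow_le (n k e : ℕ) :
    degreeOf n (X k ^ e : MvPolynomial ℕ ℕ) ≤ if n = k then e else 0 := by
  refine (degreeOf_pow_le n (X k) e).trans ?_
  rw [degreeOf_X]
  split_ifs <;> omega

theorem X_mem (k d : ℕ) (hd : 1 ≤ d) : (X k : MvPolynomial ℕ ℕ) ∈ P d := by
  refine ⟨X_ne_zero k, by simp, fun n => ?_⟩
  rw [degreeOf_X]
  split_ifs <;> omega

theorem mem_P {d i k l : ℕ} (hi : 1 ≤ i) (hd : ∀ n, (if n = k then i else 0) +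
    (if n = l then 1 else 0) ≤ d ∧ (if n = l then i else 0) + (if n = k then 1 else 0) ≤ d)
    (b c : ℕ) :
    (b • X k + c • X l + X k ^ i * X l + X k * X l ^ i : MvPolynomial ℕ ℕ) ∈ P d := by
  refine ⟨fun h => ?_, ?_, fun n => ?_⟩
  · have := congrArg (eval (fun _ => 1)) h
    simp at this
  · have h0 : i ≠ 0 := by omega
    simp [h0]
  · have h1 : ∀ (b k : ℕ), degreeOf n (b • X k : MvPolynomial ℕ ℕ) ≤
        if n = k then 1 else 0 := by
      intro b k
      rw [nsmul_eq_mul]
      refine (degreeOf_mul_le n _ _).trans ?_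
      have h2 : degreeOf n ((b : ℕ) : MvPolynomial ℕ ℕ) = 0 := by
        have : ((b : ℕ) : MvPolynomial ℕ ℕ) = C b := by simp
        rw [this, degreeOf_C]
      rw [h2, degreeOf_X, Nat.zero_add]
    have h3 := h1 b k
    have h4 := h1 c l
    have h5 : degreeOf n (X k ^ i * X l : MvPolynomial ℕ ℕ) ≤
        (if n = k then i else 0) + (if n = l then 1 else 0) := by
      refine (degreeOf_mul_le n _ _).trans ?_
      have := degreeOf_X_pow_le n k i
      rw [degreeOf_X]
      omega
    have h6 : degreeOf n (X k * X l ^ i : MvPolynomial ℕ ℕ) ≤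
        (if n = l then i else 0) + (if n = k then 1 else 0) := by
      refine (degreeOf_mul_le n _ _).trans ?_
      have := degreeOf_X_pow_le n l i
      rw [degreeOf_X]
      omega
    obtain ⟨h7, h8⟩ := hd n
    refine (degreeOf_add_le _ _ _).trans (max_le ((degreeOf_add_le _ _ _).trans (max_le
      ((degreeOf_add_le _ _ _).trans (max_le ?_ ?_)) ?_)) ?_)
    · split_ifs at h3 h7 h8 <;> omega
    · split_ifs at h4 h7 h8 <;> omega
    · omega
    · omega

theorem appears {i : ℕ} (hi : 1 ≤ i) : (pat i hi).AppearsIn (P i) := by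
  have hd : ∀ n, (if n = 0 then i else 0) + (if n = 1 then 1 else 0) ≤ i ∧
      (if n = 1 then i else 0) + (if n = 0 then 1 else 0) ≤ i := by
    intro n
    constructor
    · split_ifs <;> omega
    · split_ifs <;> omega
  refine ⟨(![X 0, X 1] : Fin 2 → MvPolynomial ℕ ℕ), fun t => ?_, fun l => ?_⟩
  · revert t
    show ∀ t : Fin 2, (![X 0, X 1] : Fin 2 → MvPolynomial ℕ ℕ) t ∈ P i
    intro t
    fin_cases t
    · exact X_mem 0 i hi
    · exact X_mem 1 i hi
  · revert l
    show ∀ l : Fin 2, (pat i hi).value (![X 0, X 1] : Fin 2 → MvPolynomial ℕ ℕ) l ∈ P i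
    intro l
    fin_cases l
    · have h := mem_P hi hd 1 2
      show (pat i hi).value (![X 0, X 1] : Fin 2 → MvPolynomial ℕ ℕ) (0 : Fin 2) ∈ P i
      rw [value_zero]
      simpa [two_mul, two_smul] using h
    · have h := mem_P hi hd 2 1
      show (pat i hi).value (![X 0, X 1] : Fin 2 → MvPolynomial ℕ ℕ) (1 : Fin 2) ∈ P i
      rw [value_one]
      simpa [two_mul, two_smul] using h

theorem regular {i j : ℕ} (hi : 1 ≤ i) (hij : i < j) : (pat i hi).PartitionRegular (P j) := by
  intro r χ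
  have hd : ∀ n, (if n = 0 then i else 0) + (if n = 0 then 1 else 0) ≤ j ∧
      (if n = 0 then i else 0) + (if n = 0 then 1 else 0) ≤ j := by
    intro n
    constructor <;> split_ifs <;> omega
  have e0 : (pat i hi).value (fun _ => X 0 : Fin 2 → MvPolynomial ℕ ℕ) (0 : Fin 2) =
      1 • X 0 + 2 • X 0 + X 0 ^ i * X 0 + X 0 * X 0 ^ i := by
    rw [value_zero, one_smul, two_smul, two_mul]
  have e1 : (pat i hi).value (fun _ => X 0 : Fin 2 → MvPolynomial ℕ ℕ) (1 : Fin 2) =
      1 • X 0 + 2 • X 0 + X 0 ^ i * X 0 + X 0 * X 0 ^ i := by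
    rw [value_one, one_smul, two_smul]
    ring
  have hall : ∀ l : Fin 2, (pat i hi).value (fun _ => X 0 : Fin 2 → MvPolynomial ℕ ℕ) l =
      1 • X 0 + 2 • X 0 + X 0 ^ i * X 0 + X 0 * X 0 ^ i := by
    intro l
    fin_cases l
    · exact e0
    · exact e1
  refine ⟨(fun _ => X 0 : Fin 2 → MvPolynomial ℕ ℕ), ⟨fun _ => X_mem 0 j (by omega), ?_⟩, ?_⟩
  · intro l
    have := hall l
    rw [this]
    exact mem_P hi hd 1 2
  · intro l l'
    congr 2
    exact (hall l).trans (hall l').symm

/-- For all `1 ≤ i < j` there is a pattern that appears in `P_i`, is partition regular over `P_j`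
and is not partition regular over `P_i`. -/
theorem result : ∀ i j : ℕ, 1 ≤ i → i < j → ∃ Φ : Pattern,
    Φ.AppearsIn (P i) ∧ Φ.PartitionRegular (P j) ∧ ¬ Φ.PartitionRegular (P i) :=
  fun i _ hi hij => ⟨pat i hi, appears hi, regular hi hij, not_regular hi⟩

end Pool.Agent.Results.MP_b358a5_co.Separating
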